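/-! Namespaces. -/

namespace FF

end FF

namespace Pool.Agent.H614.BF

end Pool.Agent.H614.BF

namespace Pool.Agent.TH122.AB

end Pool.Agent.TH122.AB

namespace Pool.Agent.TH466.QG

end Pool.Agent.TH466.QG

namespace Pool.Agent.W240.PG.Frame

end Pool.Agent.W240.PG.Frame

namespace Pool.Agent.W357.PG

end Pool.Agent.W357.PG

namespace Pool.Agent.W602.GT

end Pool.Agent.W602.GT

namespace Pool.Agent.W603.LV

end Pool.Agent.W603.LV

namespace Pool.Agent.W619.PL

end Pool.Agent.W619.PL

namespace Pool.Agent.W619.PQ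

end Pool.Agent.W619.PQ

namespace Pool.Agent.W619.TW

end Pool.Agent.W619.TW

namespace Pool.Agent.W619.Y

end Pool.Agent.W619.Y

namespace Pool.Agent.W619.Y.LogP

end Pool.Agent.W619.Y.LogP

namespace Pool.Agent.W73.PG.PULL

end Pool.Agent.W73.PG.PULL

namespace Pool.Agent.W762.PG

end Pool.Agent.W762.PG

namespace Pool.Agent.Y172

end Pool.Agent.Y172

namespace Pool.Agent.Y184.NT

end Pool.Agent.Y184.NT

namespace Pool.Agent.Y692.NT

end Pool.Agent.Y692.NT

namespace Pool.Agent.Y988.NT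

end Pool.Agent.Y988.NT
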